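import Mathlib

/-!
# Configurations with missing secrets: the forcing argument and a counting lemma
-/

set_option autoImplicit false

namespace Pool.Agent.J6H56.TF

open Finset

/-- A configuration: for every number `i` (the type) and every string `x` the secret of the block
`(i, x)`, or `none`, if it is missing. -/
abbrev Conf : Type := ℕ → List Bool → Option (List Bool)

/-- the secret of the block `(i, x)` has the length of `x` -/
def Ok (c : Conf) : Prop := ∀ i x u, c i x = some u → u.length = x.length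

/-- the configurations agree for the blocks `(i, x)` with `i + |x| ≤ ℓ` -/
def Agree (ℓ : ℕ) (c c' : Conf) : Prop := ∀ i x, i + x.length ≤ ℓ → c i x = c' i x

theorem Agree.mono {ℓ ℓ' : ℕ} {c c' : Conf} (h : Agree ℓ' c c') (hl : ℓ ≤ ℓ') : Agree ℓ c c' :=
  fun i x hx => h i x (hx.trans hl)

theorem Agree.trans {ℓ : ℕ} {c c' c'' : Conf} (h : Agree ℓ c c') (h' : Agree ℓ c' c'') :
    Agree ℓ c c'' := fun i x hx => (h i x hx).trans (h' i x hx)

/-- The condition `(ℓ, c)` is legal: if a secret of type `i` is missing, then `U i` is forced. -/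
def Legal (U : ℕ → Set Conf) (ℓ : ℕ) (c : Conf) : Prop :=
  Ok c ∧ ∀ i x, c i x = none → ∀ c', Ok c' → Agree ℓ c c' → c' ∈ U i

theorem Legal.mono {U : ℕ → Set Conf} {ℓ ℓ' : ℕ} {c : Conf} (h : Legal U ℓ c) (hl : ℓ ≤ ℓ') :
    Legal U ℓ' c :=
  ⟨h.1, fun i x hx c' h1 h2 => h.2 i x hx c' h1 (h2.mono hl)⟩

theorem generic {U : ℕ → Set Conf}
    (hU : ∀ i c, Ok c → c ∈ U i → ∃ ℓ, ∀ c', Ok c' → Agree ℓ c c' → c' ∈ U i)
    {ι : Type} [Countable ι] [Nonempty ι] (F : ℕ → ι → Set Conf)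
    (key : ∀ i r ℓ c, Legal U ℓ c →
      (∀ ℓ' c', ℓ ≤ ℓ' → Agree ℓ c c' → Legal U ℓ' c' → c' ∉ U i) →
      ∃ ℓ' c', ℓ ≤ ℓ' ∧ Agree ℓ c c' ∧ Legal U ℓ' c' ∧
        ∀ c'', Ok c'' → Agree ℓ' c' c'' → c'' ∉ U i → c'' ∈ F i r) :
    ∃ c, Ok c ∧ ∀ i, c ∈ U i ∨ ((∀ x, c i x ≠ none) ∧ c ∉ U i ∧ ∀ r, c ∈ F i r) := by
  classical
  obtain ⟨f, hf⟩ := exists_surjective_nat (ℕ × ι)
  have step : ∀ (q : ℕ × ι) (p : {p : ℕ × Conf // Legal U p.1 p.2}),
      ∃ p' : {p : ℕ × Conf // Legal U p.1 p.2}, p.1.1 + 1 ≤ p'.1.1 ∧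
        Agree p.1.1 p.1.2 p'.1.2 ∧
        ∀ c'', Ok c'' → Agree p'.1.1 p'.1.2 c'' → c'' ∉ U q.1 → c'' ∈ F q.1 q.2 := by
    rintro ⟨i, r⟩ ⟨⟨ℓ, c⟩, hp⟩
    by_cases hex : ∃ ℓ' c', ℓ ≤ ℓ' ∧ Agree ℓ c c' ∧ Legal U ℓ' c' ∧ c' ∈ U i
    · obtain ⟨ℓ', c', h1, h2, h3, h4⟩ := hex
      obtain ⟨ℓ'', h5⟩ := hU i c' h3.1 h4
      refine ⟨⟨(ℓ' + ℓ'' + 1, c'), h3.mono (by omega)⟩, ?_, h2, ?_⟩
      · show ℓ + 1 ≤ ℓ' + ℓ'' + 1
        omega
      · intro c'' h6 h7 h8
        exact absurd (h5 c'' h6 (Agree.mono h7 (by show ℓ'' ≤ ℓ' + ℓ'' + 1; omega))) h8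
    · obtain ⟨ℓ', c', h1, h2, h3, h4⟩ := key i r ℓ c hp (fun ℓ' c' h1 h2 h3 h4 =>
        hex ⟨ℓ', c', h1, h2, h3, h4⟩)
      refine ⟨⟨(ℓ' + 1, c'), h3.mono (by omega)⟩, ?_, h2, ?_⟩
      · show ℓ + 1 ≤ ℓ' + 1
        omega
      · intro c'' h6 h7 h8
        exact h4 c'' h6 (Agree.mono h7 (by show ℓ' ≤ ℓ' + 1; omega)) h8
  choose nx h1 h2 h3 using step
  have hleg0 : Legal U 0 (fun _ x => some (List.replicate x.length false)) := by
    refine ⟨fun i x u hu => ?_, fun i x hx => by simp at hx⟩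
    simp only [Option.some.injEq] at hu
    rw [← hu, List.length_replicate]
  let P : ℕ → {p : ℕ × Conf // Legal U p.1 p.2} :=
    fun k => Nat.rec ⟨(0, fun _ x => some (List.replicate x.length false)), hleg0⟩
      (fun k p => nx (f k) p) k
  have hP : ∀ k, P (k + 1) = nx (f k) (P k) := fun k => rfl
  have hl : ∀ k, (P k).1.1 + 1 ≤ (P (k + 1)).1.1 := fun k => by rw [hP]; exact h1 _ _
  have hlk : ∀ k, k ≤ (P k).1.1 := by
    intro k
    induction k with
    | zero => omega
    | succ k ih => have := hl k; omega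
  have hmono : ∀ k d, (P k).1.1 ≤ (P (k + d)).1.1 ∧
      Agree (P k).1.1 (P k).1.2 (P (k + d)).1.2 := by
    intro k d
    induction d with
    | zero => exact ⟨le_rfl, fun _ _ _ => rfl⟩
    | succ d ih =>
      have h4 := hl (k + d)
      refine ⟨by show _ ≤ (P (k + d + 1)).1.1; omega, ih.2.trans ?_⟩
      show Agree _ _ (P (k + d + 1)).1.2
      rw [hP]
      exact (h2 _ _).mono ih.1
  let c : Conf := fun i x => (P (i + x.length)).1.2 i x
  have hc : ∀ k, Agree (P k).1.1 (P k).1.2 c := by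
    intro k i x hx
    show (P k).1.2 i x = (P (i + x.length)).1.2 i x
    rcases le_total k (i + x.length) with h | h
    · obtain ⟨d, hd⟩ := Nat.exists_eq_add_of_le h
      rw [hd]
      exact (hmono k d).2 i x hx
    · obtain ⟨d, hd⟩ := Nat.exists_eq_add_of_le h
      rw [hd]
      exact ((hmono (i + x.length) d).2 i x (hlk _)).symm
  have hok : Ok c := by
    intro i x u hu
    exact (P (i + x.length)).2.1 i x u hu
  refine ⟨c, hok, fun i => ?_⟩
  by_cases hci : c ∈ U i
  · exact Or.inl hci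
  refine Or.inr ⟨fun x hx => ?_, hci, fun r => ?_⟩
  · have h4 := (P (i + x.length)).2.2 i x hx c hok (hc _)
    exact hci h4
  · obtain ⟨k, hk⟩ := hf (i, r)
    have h4 := h3 (f k) (P k) c hok (hc (k + 1))
    rw [hk] at h4
    exact h4 hci

/-- If every element of `R`, compared with a table `u` outside of `D`, is hit by one of `q` places,
depending on the values in `D` only, then `R` is small. -/
theorem count {X Y : Type} [Fintype X] [DecidableEq X] [DecidableEq Y]
    (R : Finset (X → Y)) (q : ℕ)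
    (h : ∀ (D : Finset X) (u : X → Y), u ∈ R → ∀ x, x ∉ D → ∃ H : Finset (X × Y), H.card ≤ q ∧
      ∀ v ∈ R, (∀ x ∈ D, v x = u x) → ∃ p ∈ H, p.1 ∉ D ∧ v p.1 = p.2) :
    R.card ≤ q ^ Fintype.card X := by
  have key : ∀ (k : ℕ) (D : Finset X), D.card + k = Fintype.card X → ∀ S ⊆ R,
      (∀ u ∈ S, ∀ v ∈ S, ∀ x ∈ D, v x = u x) → S.card ≤ q ^ k := by
    intro k
    induction k with
    | zero =>
      intro D hD S _ hS
      have hDu : D = univ := (Finset.card_eq_iff_eq_univ D).1 (by omega)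
      rw [pow_zero]
      refine Finset.card_le_one.2 fun u hu v hv => ?_
      funext x
      exact (hS u hu v hv x (by rw [hDu]; exact mem_univ _)).symm
    | succ k ih =>
      intro D hD S hSR hS
      rcases S.eq_empty_or_nonempty with rfl | ⟨u, hu⟩
      · simp
      obtain ⟨x, hx⟩ : ∃ x, x ∉ D := by
        by_contra hcon
        push Not at hcon
        have : D = univ := eq_univ_of_forall hcon
        rw [this, card_univ] at hD
        omega
      obtain ⟨H, hH, hv⟩ := h D u (hSR hu) x hx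
      have hsub : S ⊆ (H.filter fun p => p.1 ∉ D).biUnion fun p => S.filter fun v => v p.1 = p.2 := by
        intro v hvS
        obtain ⟨p, hp1, hp2, hp3⟩ := hv v (hSR hvS) (fun x hx => hS u hu v hvS x hx)
        exact mem_biUnion.2 ⟨p, mem_filter.2 ⟨hp1, hp2⟩, mem_filter.2 ⟨hvS, hp3⟩⟩
      calc S.card ≤ _ := card_le_card hsub
        _ ≤ (H.filter fun p => p.1 ∉ D).card * q ^ k := by
            refine card_biUnion_le_card_mul _ _ _ fun p hp => ?_
            have hpD := (mem_filter.1 hp).2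
            refine ih (insert p.1 D) (by rw [card_insert_of_notMem hpD]; omega) _
              ((filter_subset _ _).trans hSR) ?_
            intro a ha b hb y hy
            obtain ⟨ha1, ha2⟩ := mem_filter.1 ha
            obtain ⟨hb1, hb2⟩ := mem_filter.1 hb
            rcases mem_insert.1 hy with rfl | hy
            · rw [ha2, hb2]
            · exact hS a ha1 b hb1 y hy
        _ ≤ q * q ^ k := Nat.mul_le_mul_right _ ((card_filter_le _ _).trans hH)
        _ = q ^ (k + 1) := by rw [pow_succ, mul_comm]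
  exact key (Fintype.card X) ∅ (by simp) R (Subset.refl _) (fun u _ v _ x hx => by simp at hx)

/-- the strings of length `n` -/
abbrev Str (n : ℕ) : Type := List.Vector Bool n

open Classical in
/-- the configuration `c`, changed for the blocks `(i, x)` with `|x| = n`: the secret is `u x` for
`x` in `D` and missing for the other `x` -/
noncomputable def fill (c : Conf) (i n : ℕ) (D : Finset (Str n)) (u : Str n → Str n) : Conf :=
  fun j x => if h : j = i ∧ x.length = n then
    (if (⟨x, h.2⟩ : Str n) ∈ D then some (u ⟨x, h.2⟩).1 else none) else c j x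

theorem fill_ne {c : Conf} {i n : ℕ} {D : Finset (Str n)} {u : Str n → Str n} {j : ℕ}
    {x : List Bool} (h : ¬ (j = i ∧ x.length = n)) : fill c i n D u j x = c j x := by
  unfold fill
  rw [dif_neg h]

theorem fill_mem {c : Conf} {i n : ℕ} {D : Finset (Str n)} {u : Str n → Str n} {x : Str n}
    (h : x ∈ D) : fill c i n D u i x.1 = some (u x).1 := by
  unfold fill
  rw [dif_pos ⟨rfl, x.2⟩]
  exact if_pos h

theorem fill_notMem {c : Conf} {i n : ℕ} {D : Finset (Str n)} {u : Str n → Str n} {x : Str n}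
    (h : x ∉ D) : fill c i n D u i x.1 = none := by
  unfold fill
  rw [dif_pos ⟨rfl, x.2⟩]
  exact if_neg h

theorem fill_ok {c : Conf} (hc : Ok c) (i n : ℕ) (D : Finset (Str n)) (u : Str n → Str n) :
    Ok (fill c i n D u) := by
  intro j x v hv
  by_cases h : j = i ∧ x.length = n
  · obtain ⟨rfl, hx⟩ := h
    by_cases hD : (⟨x, hx⟩ : Str n) ∈ D
    · have h1 := fill_mem (c := c) (i := j) (u := u) hD
      have h2 : fill c j n D u j x = some (u ⟨x, hx⟩).1 := h1
      rw [h2, Option.some.injEq] at hv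
      rw [← hv, hx]
      exact (u ⟨x, hx⟩).2
    · have h1 : fill c j n D u j x = none := fill_notMem (c := c) (i := j) (u := u) hD
      rw [h1] at hv
      exact absurd hv (by simp)
  · rw [fill_ne h] at hv
    exact hc j x v hv

theorem fill_agree {ℓ n : ℕ} (hn : ℓ < n) (c : Conf) (i : ℕ) (D : Finset (Str n))
    (u : Str n → Str n) : Agree ℓ c (fill c i n D u) := by
  intro j x hx
  rw [fill_ne]
  omega

theorem fill_congr {c : Conf} {i n : ℕ} {D : Finset (Str n)} {u v : Str n → Str n}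
    (h : ∀ x ∈ D, v x = u x) : fill c i n D v = fill c i n D u := by
  funext j x
  by_cases hj : j = i ∧ x.length = n
  · obtain ⟨rfl, hx⟩ := hj
    by_cases hD : (⟨x, hx⟩ : Str n) ∈ D
    · have h1 : fill c j n D u j x = some (u ⟨x, hx⟩).1 := fill_mem hD
      have h2 : fill c j n D v j x = some (v ⟨x, hx⟩).1 := fill_mem hD
      rw [h1, h2, h _ hD]
    · have h1 : fill c j n D u j x = none := fill_notMem (x := ⟨x, hx⟩) hD
      have h2 : fill c j n D v j x = none := fill_notMem (x := ⟨x, hx⟩) hD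
      rw [h1, h2]
  · rw [fill_ne hj, fill_ne hj]

section

variable {U : ℕ → Set Conf} {i ℓ n : ℕ} {c : Conf}

theorem fill_notU
    (hU : ∀ i c, Ok c → c ∈ U i → ∃ ℓ, ∀ c', Ok c' → Agree ℓ c c' → c' ∈ U i)
    (hl : Legal U ℓ c) (hno : ∀ ℓ' c', ℓ ≤ ℓ' → Agree ℓ c c' → Legal U ℓ' c' → c' ∉ U i)
    (hn : ℓ < n) (D : Finset (Str n)) (u : Str n → Str n) : fill c i n D u ∉ U i := by
  intro hmem
  obtain ⟨ℓ'', h5⟩ := hU i _ (fill_ok hl.1 i n D u) hmem
  refine hno (ℓ + ℓ'') (fill c i n D u) (by omega) (fill_agree hn c i D u)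
    ⟨fill_ok hl.1 i n D u, fun j x hx c' h1 h2 => ?_⟩ hmem
  by_cases hj : j = i
  · subst hj
    exact h5 c' h1 (h2.mono (by omega))
  · rw [fill_ne (fun h => hj h.1)] at hx
    exact hl.2 j x hx c' h1 ((fill_agree hn c i D u).trans (h2.mono (by omega)))

theorem fill_legal (hl : Legal U ℓ c)
    (hno : ∀ ℓ' c', ℓ ≤ ℓ' → Agree ℓ c c' → Legal U ℓ' c' → c' ∉ U i)
    (hn : ℓ < n) (u : Str n → Str n) : Legal U ℓ (fill c i n univ u) := by
  refine ⟨fill_ok hl.1 i n _ u, fun j x hx c' h1 h2 => ?_⟩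
  have h3 : c j x = none := by
    by_cases h : j = i ∧ x.length = n
    · obtain ⟨rfl, hx'⟩ := h
      have h4 : fill c j n univ u j x = some (u ⟨x, hx'⟩).1 :=
        fill_mem (x := (⟨x, hx'⟩ : Str n)) (mem_univ _)
      rw [h4] at hx
      exact absurd hx (by simp)
    · rwa [fill_ne h] at hx
  exact hl.2 j x h3 c' h1 ((fill_agree hn c i _ u).trans h2)

end

end Pool.Agent.J6H56.TF
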