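import Pool.Agent.H628R3.RO.Defs
import Pool.Agent.NPC.Dec

/-!
# Solutions of a search problem as an oracle
-/

set_option autoImplicit false

namespace Pool.Agent.J6H56.TF

open Pool.Agent.NPC Pool.Agent.H628R3.RO

/-- Access to the strings `t z`, for a function `t`: with the questions `true :: ⟨z, w⟩` and
`false :: ⟨z, w⟩` one asks for the bit number `|w|` of the string `t z` (`false`, if there is none)
and whether the string `t z` has more than `|w|` bits. -/
def bits (t : List Bool → List Bool) : Oracle
  | [] => false
  | true :: q => (t (unpair q).1).getD (unpair q).2.length false
  | false :: q => decide ((unpair q).2.length < (t (unpair q).1).length)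

theorem bits_congr {t t' : List Bool → List Bool} {q : List Bool}
    (h : t (unpair q.tail).1 = t' (unpair q.tail).1) : bits t q = bits t' q := by
  match q with
  | [] => rfl
  | true :: q =>
    have h1 : t (unpair q).1 = t' (unpair q).1 := h
    simp only [bits, h1]
  | false :: q =>
    have h1 : t (unpair q).1 = t' (unpair q).1 := h
    simp only [bits, h1]

theorem length_unpair (y : List Bool) : (unpair y).1.length ≤ y.length := by
  have h1 : ∀ s : List Bool × List Bool × Bool,
      (ustep s).1.length + (ustep s).2.1.length ≤ s.1.length + s.2.1.length := by
    rintro ⟨a, l, b⟩
    unfold ustep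
    cases b with
    | true => simp
    | false =>
      match l with
      | [] => simp
      | false :: l => simp
      | [true] => simp
      | true :: c :: l =>
        simp
        omega
  have h2 : ∀ (k : ℕ) (s : List Bool × List Bool × Bool),
      (ustep^[k] s).1.length + (ustep^[k] s).2.1.length ≤ s.1.length + s.2.1.length := by
    intro k
    induction k with
    | zero => intro s; exact le_rfl
    | succ k ih =>
      intro s
      rw [Function.iterate_succ_apply]
      exact (ih _).trans (h1 s)
  have h3 := h2 y.length ([], y, false)
  unfold unpair
  simp only [List.length_reverse]
  simp only [List.length_nil] at h3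
  omega

end Pool.Agent.J6H56.TF
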