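import Pool.Agent.J6H56.TF.Search
import Pool.Agent.J6H49.OP.Fin

/-!
# Search problems: the main theorem
-/

set_option autoImplicit false

namespace Pool.Agent.J6H56.TF

open Filter Pool.Agent.NPC Pool.Agent.H628R3.RO Pool.Agent.J6H49.OP
open Pool.Agent.H622R2 (poly_pairBits)
open Pool.Agent.TH678.GC (join)
open Pool.Agent.TH678.RS (bt)
open Pool.Agent.Y626.WX (Cp cod exists_cp)
open Pool.Agent.J6H49.PHC (oracle)

variable {α : ℕ → ℕ} {g : ℕ → Pool.Agent.H620R2.Gauge.SAlg × Polynomial ℕ}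
  {S : ℕ → Polynomial ℕ} {Φ : Oracle → Oracle}

theorem card_fun (n : ℕ) : Fintype.card (Str n → Str n) = 2 ^ (n * 2 ^ n) := by
  classical
  rw [Fintype.card_fun, card_vector, Fintype.card_bool, ← pow_mul]

/-- a table which is not in the union of the sets `R a` -/
theorem exists_table {n : ℕ} (W : Finset Oracle) (R : Oracle → Finset (Str n → Str n)) {q : ℕ}
    (hR : ∀ a ∈ W, (R a).card ≤ q ^ 2 ^ n) (hW : W.card * q ^ 2 ^ n < 2 ^ (n * 2 ^ n)) :
    ∃ u : Str n → Str n, ∀ a ∈ W, u ∉ R a := by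
  classical
  by_contra hcon
  push Not at hcon
  have h1 : (Finset.univ : Finset (Str n → Str n)) ⊆ W.biUnion R := by
    intro u _
    obtain ⟨a, ha, hu⟩ := hcon u
    exact Finset.mem_biUnion.2 ⟨a, ha, hu⟩
  have h2 := (Finset.card_le_card h1).trans (Finset.card_biUnion_le_card_mul _ _ _ hR)
  rw [Finset.card_univ, card_fun] at h2
  omega

theorem card_Str (n : ℕ) : Fintype.card (Str n) = 2 ^ n := by
  rw [card_vector, Fintype.card_bool]

theorem key_S (hc : Cp g S (bt α) Φ) (hα : Monotone α) (hα' : Tendsto α atTop atTop) (C : Oracle)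
    {𝒲 : ℕ → Finset Oracle}
    (h𝒲 : ∀ P : Polynomial ℕ, ∀ᶠ n in atTop, (𝒲 n).card * P.eval n ^ 2 ^ n < 2 ^ (n * 2 ^ n))
    (e : ℕ → Alg × Polynomial ℕ) (i : ℕ) (r : Alg × ℕ) (ℓ : ℕ) (c : Conf)
    (hl : Legal (US Φ C e) ℓ c)
    (hno : ∀ ℓ' c', ℓ ≤ ℓ' → Agree ℓ c c' → Legal (US Φ C e) ℓ' c' → c' ∉ US Φ C e i) :
    ∃ ℓ' c', ℓ ≤ ℓ' ∧ Agree ℓ c c' ∧ Legal (US Φ C e) ℓ' c' ∧
      ∀ c'', Ok c'' → Agree ℓ' c' c'' → c'' ∉ US Φ C e i → c'' ∈ FS Φ C 𝒲 e i r := by
  classical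
  obtain ⟨M, N⟩ := r
  have h1 := le_lam hα hα' (qb M)
  have h2 := le_lam hα hα' ((lv (e i)).comp (qb M))
  obtain ⟨n, h1, h2, h3, h4, h5⟩ := (h1.and (h2.and ((h𝒲 (places (e i) M)).and
    ((eventually_gt_atTop ℓ).and (eventually_ge_atTop (N + 1)))))).exists
  rw [Polynomial.eval_comp] at h2
  have hU := US_open hc C e
  have htot : ∀ (D : Finset (Str n)) (u : Str n → Str n) (z : List Bool),
      ∃ y, Sol Φ C (e i) (fill c i n D u) z y := by
    intro D u z
    by_contra hcon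
    push Not at hcon
    exact fill_notU hU hl hno h4 D u ⟨z, hcon⟩
  obtain ⟨u, hu⟩ := exists_table (𝒲 n) (q := (places (e i) M).eval n)
    (fun a => Finset.univ.filter fun u => ∀ (x : Str n) (t : List Bool → List Bool),
      (∀ z, Sol Φ C (e i) (fill c i n Finset.univ u) z (t z)) → ∃ y,
        M.out (join (oracle Φ C (ora (fill c i n Finset.univ u))) (join (bits t) a)) x.1 =
          some y ∧ fill c i n Finset.univ u i x.1 = some y)
    (fun a _ => by
      have h6 := count (X := Str n) (Y := Str n) (Finset.univ.filter fun u =>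
        ∀ (x : Str n) (t : List Bool → List Bool),
        (∀ z, Sol Φ C (e i) (fill c i n Finset.univ u) z (t z)) → ∃ y,
          M.out (join (oracle Φ C (ora (fill c i n Finset.univ u))) (join (bits t) a)) x.1 =
            some y ∧ fill c i n Finset.univ u i x.1 = some y) ((places (e i) M).eval n)
        (fun D u _ x hx => by
          obtain ⟨H, hH1, hH2⟩ := one_run hc C (e i) M a (by omega : 1 ≤ n) h1 h2 c i D u
            (htot D u) x hx
          refine ⟨H, hH1, fun v hv hvD => ?_⟩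
          by_contra hcon
          push Not at hcon
          obtain ⟨t, ht1, ht2⟩ := hH2 v hvD hcon (htot _ v)
          obtain ⟨y, hy1, hy2⟩ := (Finset.mem_filter.1 hv).2 x t ht1
          exact ht2 y hy1 hy2)
      rwa [card_Str] at h6) h3
  have hFS : fill c i n Finset.univ u ∈ FS Φ C 𝒲 e i (M, N) := by
    refine ⟨n, by show N ≤ n; omega, fun a ha => ?_⟩
    have h6 := hu a ha
    simp only [Finset.mem_filter, Finset.mem_univ, true_and] at h6
    push Not at h6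
    obtain ⟨x, t, h7, h8⟩ := h6
    exact ⟨x.1, x.2, t, h7, fun y hy => h8 y hy⟩
  obtain ⟨ℓ'', h6⟩ := FS_open hc C 𝒲 e i (M, N) _ hFS
  refine ⟨ℓ + ℓ'', _, by omega, fill_agree h4 c i Finset.univ u,
    (fill_legal hl hno h4 u).mono (by omega), fun c'' h7 h8 h9 => h6 c'' h7 (h8.mono (by omega)) h9⟩

/-- The main theorem on search problems. -/
theorem mainS (α : ℕ → ℕ) (hα : Monotone α) (hα' : Tendsto α atTop atTop) (C : Oracle)
    (𝒲 : ℕ → Finset Oracle)
    (h𝒲 : ∀ P : Polynomial ℕ, ∀ᶠ n in atTop, (𝒲 n).card * P.eval n ^ 2 ^ n < 2 ^ (n * 2 ^ n)) :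
    ∃ O : Oracle, NearlyCollapsed α O ∧ Contains O C ∧ ∀ R, IsTFNP O R → ∃ R', IsTFNP O R' ∧
      (∀ x, ∃! y, R' x y) ∧ (∀ x y, R' x y → y.length = x.length) ∧
      ∀ M : Alg, ∃ᶠ n in atTop, ∀ a ∈ 𝒲 n, ∃ x : List Bool, x.length = n ∧
        ∃ t : List Bool → List Bool, (∀ z, R z (t z)) ∧
          ∀ y, M.out (join O (join (bits t) a)) x = some y → ¬ R' x y := by
  classical
  obtain ⟨g, hg⟩ := Pool.Agent.H620R2.Gauge.CC.exists_enum
  obtain ⟨S, Φ, hc⟩ := exists_cp g (bt (slow2 α))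
  have h1 := slow2_mono hα
  have h2 := slow2_tendsto hα'
  obtain ⟨e, he⟩ := exists_surjective_nat (Alg × Polynomial ℕ)
  haveI : Nonempty Alg := ⟨(e 0).1⟩
  obtain ⟨c, hok, hcc⟩ := generic (US_open hc C e) (ι := Alg × ℕ) (FS Φ C 𝒲 e)
    (key_S hc h1 h2 C h𝒲 e)
  refine ⟨oracle Φ C (ora c), nearly hg hα hc (join (ora c) C), ⟨[false, true], fun x => rfl⟩,
    fun R hR => ?_⟩
  obtain ⟨⟨V₀, p, ⟨V, hV⟩, hRV⟩, htot⟩ := hR
  obtain ⟨i, hi⟩ := he (V, p)
  have hsol : ∀ z y, Sol Φ C (e i) c z y ↔ R z y := by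
    intro z y
    rw [hRV, hi]
    unfold Sol
    rw [hV, Option.some.injEq]
  rcases hcc i with ⟨z, hz⟩ | ⟨h3, -, h4⟩
  · obtain ⟨y, hy⟩ := htot z
    exact absurd ((hsol z y).2 hy) (hz y)
  refine ⟨fun x y => c i x = some y, ⟨⟨fun y => [oracle Φ C (ora c)
    ([false, false] ++ wd i (unpair y).1 (unpair y).2)], Polynomial.X, ?_, fun x y => ?_⟩,
    fun x => Option.ne_none_iff_exists'.1 (h3 x)⟩, fun x => ?_, fun x y h => hok i x y h,
    fun M => ?_⟩
  · refine IsFP.tt (Q := fun y => [[false, false] ++ wd i (unpair y).1 (unpair y).2])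
      (H := fun p => p.2) (Poly.cons ?_ (NPC.Poly.const [])) (Poly.snd Poly.id)
    refine Poly.append (NPC.Poly.const _) ?_
    exact poly_pairBits (Poly.append (NPC.Poly.const _) (Poly.cons (NPC.Poly.const _)
      (Poly.fst poly_unpair))) (Poly.snd poly_unpair)
  · rw [Polynomial.eval_X]
    simp only [unpair_pairBits]
    rw [O_pre, List.cons.injEq, and_iff_left rfl, ora_wd]
    exact ⟨fun h => ⟨(hok i x y h).le, h⟩, fun h => h.2⟩
  · obtain ⟨y, hy⟩ := Option.ne_none_iff_exists'.1 (h3 x)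
    refine ⟨y, hy, fun y' hy' => ?_⟩
    have h5 : some y' = some y := hy'.symm.trans hy
    exact Option.some.inj h5
  · rw [frequently_atTop]
    intro N
    obtain ⟨n, hn, h5⟩ := h4 (M, N)
    refine ⟨n, hn, fun a ha => ?_⟩
    obtain ⟨x, hx, t, ht, h6⟩ := h5 a ha
    exact ⟨x, hx, t, fun z => (hsol z _).1 (ht z), fun y hy => h6 y hy⟩

end Pool.Agent.J6H56.TF
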