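import Pool.Agent.J6H56.TF.MainS

/-!
# Proof systems for sets hard for `NP`: the main theorem
-/

set_option autoImplicit false

namespace Pool.Agent.J6H56.TF

open Filter Pool.Agent.NPC Pool.Agent.H628R3.RO Pool.Agent.J6H49.OP
open Pool.Agent.TH678.GC (join)
open Pool.Agent.TH678.RS (bt)
open Pool.Agent.Y626.WX (Cp cod exists_cp)
open Pool.Agent.J6H49.PHC (oracle)

/-- the proof system number `i` proves a false statement, that the secret of the block `(i, x)` is
not missing -/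
def UQ (Φ : Oracle → Oracle) (C : Oracle) (e : ℕ → Alg × Alg) (i : ℕ) : Set Conf :=
  {c | ∃ w x v, c i x = none ∧ (e i).1.out (oracle Φ C (ora c)) w = some v ∧
    (e i).2.out (oracle Φ C (ora c)) (nm i x) = some v}

/-- `M` is wrong for some input of length `n + 1`, for all advice in `𝒲 n` -/
def FQ (Φ : Oracle → Oracle) (C : Oracle) (𝒲 : ℕ → Finset Oracle) (e : ℕ → Alg × Alg)
    (i : ℕ) (r : Alg × ℕ) : Set Conf :=
  {c | ∃ n ≥ r.2, ∀ a ∈ 𝒲 n, ∃ x : List Bool, x.length = n ∧ ∀ w v,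
    r.1.out (join (oracle Φ C (ora c)) a) (true :: x) = some w →
    (e i).1.out (oracle Φ C (ora c)) w = some v →
    (e i).2.out (oracle Φ C (ora c)) (nm i x) ≠ some v}

variable {α : ℕ → ℕ} {g : ℕ → Pool.Agent.H620R2.Gauge.SAlg × Polynomial ℕ}
  {S : ℕ → Polynomial ℕ} {Φ : Oracle → Oracle}

theorem out_agree (hc : Cp g S (bt α) Φ) (C : Oracle) (M : Alg) {c c' : Conf} {ℓ : ℕ}
    (h : Agree ℓ c c') {z : List Bool} (hz : (qb M).eval z.length ≤ ℓ) :
    M.out (oracle Φ C (ora c)) z = M.out (oracle Φ C (ora c')) z :=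
  out_loc hc M (ℓ := ℓ) (fun _ _ => rfl) (fun u hu => ora_agree h u hu) hz

theorem out_agree2 (hc : Cp g S (bt α) Φ) (C a : Oracle) (M : Alg) {c c' : Conf} {ℓ : ℕ}
    (h : Agree ℓ c c') {z : List Bool} (hz : (qb M).eval z.length ≤ ℓ) :
    M.out (join (oracle Φ C (ora c)) a) z = M.out (join (oracle Φ C (ora c')) a) z := by
  obtain ⟨Q, -, hQ2, hQ3⟩ := qb_spec M (join (oracle Φ C (ora c')) a) z
  refine hQ3 _ fun q hq => ?_
  have hql := hQ2 q hq
  match q, hql with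
  | [], _ => rfl
  | false :: q, hql =>
    rw [List.length_cons] at hql
    exact O_loc hc (ℓ := ℓ) (fun _ _ => rfl) (fun u hu => ora_agree h u hu) (by omega)
  | true :: q, _ => rfl

theorem UQ_open (hc : Cp g S (bt α) Φ) (C : Oracle) (e : ℕ → Alg × Alg) (i : ℕ)
    (c : Conf) (_ : Ok c) (h : c ∈ UQ Φ C e i) :
    ∃ ℓ, ∀ c', Ok c' → Agree ℓ c c' → c' ∈ UQ Φ C e i := by
  obtain ⟨w, x, v, h1, h2, h3⟩ := h
  refine ⟨(qb (e i).1).eval w.length + (qb (e i).2).eval (nm i x).length + i + x.length,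
    fun c' _ h4 => ⟨w, x, v, ?_, ?_, ?_⟩⟩
  · rw [← h4 i x (by omega), h1]
  · rw [← h2]
    exact (out_agree hc C _ h4 (by omega)).symm
  · rw [← h3]
    exact (out_agree hc C _ h4 (by omega)).symm

theorem FQ_open (hc : Cp g S (bt α) Φ) (C : Oracle) (𝒲 : ℕ → Finset Oracle)
    (e : ℕ → Alg × Alg) (i : ℕ) (r : Alg × ℕ) (c : Conf) (h : c ∈ FQ Φ C 𝒲 e i r) :
    ∃ ℓ, ∀ c', Ok c' → Agree ℓ c c' → c' ∈ FQ Φ C 𝒲 e i r := by
  obtain ⟨n, hn, h1⟩ := h
  obtain ⟨b, hb⟩ := r.1.out_length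
  refine ⟨(qb r.1).eval (n + 1) + (qb (e i).1).eval (b.eval (n + 1)) +
    (qb (e i).2).eval (i + n + 1), fun c' _ hag => ⟨n, hn, fun a ha => ?_⟩⟩
  obtain ⟨x, hx, h2⟩ := h1 a ha
  refine ⟨x, hx, fun w v h3 h4 => ?_⟩
  have hxl : (true :: x).length = n + 1 := by rw [List.length_cons, hx]
  have hwl := hb _ _ _ h3
  rw [hxl] at hwl
  have h5 := eval_mono (qb (e i).1) hwl
  rw [← out_agree2 hc C a r.1 hag (by rw [hxl]; omega)] at h3
  rw [← out_agree hc C _ hag (by omega)] at h4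
  rw [← out_agree hc C _ hag (by rw [length_nm, hx]; omega)]
  exact h2 w v h3 h4

/-- One run: with few places, such that the proof found without a hit is wrong. -/
theorem one_runQ (hc : Cp g S (bt α) Φ) (C : Oracle) (e : ℕ → Alg × Alg) (M : Alg)
    {b : Polynomial ℕ}
    (hb : ∀ (A : Oracle) (x z : List Bool), M.out A x = some z → z.length ≤ b.eval x.length)
    (a : Oracle) {n : ℕ} (hn : 1 ≤ n) (c : Conf) (i : ℕ) (hM : (qb M).eval (n + 1) ≤ lam α n)
    (hV : (qb (e i).1).eval (b.eval (n + 1)) ≤ lam α n)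
    (hF : (qb (e i).2).eval (i + n + 1) ≤ lam α n) (D : Finset (Str n))
    (u : Str n → Str n) (hU : fill c i n D u ∉ UQ Φ C e i) (x : Str n) (hx : x ∉ D) :
    ∃ H : Finset (Str n × Str n), H.card ≤ M.p.eval (n + 1) +
        ((e i).1.p.eval (b.eval (n + 1)) + (e i).2.p.eval (i + n + 1)) ∧
      ∀ v : Str n → Str n, (∀ x ∈ D, v x = u x) → (∀ p ∈ H, p.1 ∉ D → v p.1 ≠ p.2) →
        ∀ w y, M.out (join (oracle Φ C (ora (fill c i n Finset.univ v))) a) (true :: x.1) =
            some w → (e i).1.out (oracle Φ C (ora (fill c i n Finset.univ v))) w = some y →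
          (e i).2.out (oracle Φ C (ora (fill c i n Finset.univ v))) (nm i x.1) ≠ some y := by
  classical
  have hxl : (true :: x.1).length = n + 1 := by rw [List.length_cons, x.2]
  have hxn : (nm i x.1).length = i + n + 1 := by rw [length_nm, x.2]
  obtain ⟨H1, Q1, hH1, -, -, hQ3⟩ := run_stable2 hc M C hn c i D u (z := true :: x.1)
    (by rw [hxl]; exact hM) a
  rw [hxl] at hH1
  rcases ho : M.out (join (oracle Φ C (ora (fill c i n D u))) a) (true :: x.1) with _ | w₀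
  · refine ⟨H1, by omega, fun v hv hno w y hw => ?_⟩
    rw [hQ3 v hv hno a (fun _ _ => rfl), ho] at hw
    exact absurd hw (by simp)
  · have hwl := hb _ _ _ ho
    rw [hxl] at hwl
    have h1 := eval_mono (qb (e i).1) hwl
    have h2 := eval_mono (e i).1.p hwl
    obtain ⟨H2, hH2, hr2⟩ := run_stable hc (e i).1 C hn c i D u (z := w₀) (h1.trans hV)
    obtain ⟨H3, hH3, hr3⟩ := run_stable hc (e i).2 C hn c i D u (z := nm i x.1)
      (by rw [hxn]; exact hF)
    rw [hxn] at hH3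
    refine ⟨H1 ∪ (H2 ∪ H3), ?_, fun v hv hno w y hw hy hf => ?_⟩
    · have h3 := Finset.card_union_le H1 (H2 ∪ H3)
      have h4 := Finset.card_union_le H2 H3
      omega
    · rw [hQ3 v hv (fun p hp => hno p (Finset.mem_union_left _ hp)) a (fun _ _ => rfl), ho,
        Option.some.injEq] at hw
      subst hw
      rw [hr2 v hv fun p hp => hno p (Finset.mem_union_right _ (Finset.mem_union_left _ hp))] at hy
      rw [hr3 v hv fun p hp => hno p (Finset.mem_union_right _ (Finset.mem_union_right _ hp))] at hf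
      exact hU ⟨w₀, x.1, y, fill_notMem hx, hy, hf⟩

theorem key_Q (hc : Cp g S (bt α) Φ) (hα : Monotone α) (hα' : Tendsto α atTop atTop) (C : Oracle)
    {𝒲 : ℕ → Finset Oracle}
    (h𝒲 : ∀ P : Polynomial ℕ, ∀ᶠ n in atTop, (𝒲 n).card * P.eval n ^ 2 ^ n < 2 ^ (n * 2 ^ n))
    (e : ℕ → Alg × Alg) (i : ℕ) (r : Alg × ℕ) (ℓ : ℕ) (c : Conf)
    (hl : Legal (UQ Φ C e) ℓ c)
    (hno : ∀ ℓ' c', ℓ ≤ ℓ' → Agree ℓ c c' → Legal (UQ Φ C e) ℓ' c' → c' ∉ UQ Φ C e i) :
    ∃ ℓ' c', ℓ ≤ ℓ' ∧ Agree ℓ c c' ∧ Legal (UQ Φ C e) ℓ' c' ∧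
      ∀ c'', Ok c'' → Agree ℓ' c' c'' → c'' ∉ UQ Φ C e i → c'' ∈ FQ Φ C 𝒲 e i r := by
  classical
  obtain ⟨M, N⟩ := r
  obtain ⟨b, hb⟩ := M.out_length
  have h1 := le_lam hα hα' ((qb M).comp (Polynomial.X + 1))
  have h2 := le_lam hα hα' (((qb (e i).1).comp b).comp (Polynomial.X + 1))
  have h2' := le_lam hα hα' ((qb (e i).2).comp (Polynomial.C i + Polynomial.X + 1))
  have h3 := h𝒲 (M.p.comp (Polynomial.X + 1) + (((e i).1.p.comp b).comp (Polynomial.X + 1) +
    (e i).2.p.comp (Polynomial.C i + Polynomial.X + 1)))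
  obtain ⟨n, h1, h2, h2', h3, h4, h5⟩ := (h1.and (h2.and (h2'.and (h3.and
    ((eventually_gt_atTop ℓ).and (eventually_ge_atTop (N + 1))))))).exists
  simp only [Polynomial.eval_comp, Polynomial.eval_add, Polynomial.eval_X, Polynomial.eval_one,
    Polynomial.eval_C] at h1 h2 h2' h3
  have hU := UQ_open hc C e
  have htot : ∀ (D : Finset (Str n)) (u : Str n → Str n), fill c i n D u ∉ UQ Φ C e i :=
    fun D u => fill_notU hU hl hno h4 D u
  obtain ⟨u, hu⟩ := exists_table (𝒲 n) (fun a => Finset.univ.filter fun u => ∀ x : Str n, ∃ w y,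
      M.out (join (oracle Φ C (ora (fill c i n Finset.univ u))) a) (true :: x.1) = some w ∧
      (e i).1.out (oracle Φ C (ora (fill c i n Finset.univ u))) w = some y ∧
      (e i).2.out (oracle Φ C (ora (fill c i n Finset.univ u))) (nm i x.1) = some y)
    (fun a _ => by
      have h6 := count (X := Str n) (Y := Str n) (Finset.univ.filter fun u => ∀ x : Str n, ∃ w y,
        M.out (join (oracle Φ C (ora (fill c i n Finset.univ u))) a) (true :: x.1) = some w ∧
        (e i).1.out (oracle Φ C (ora (fill c i n Finset.univ u))) w = some y ∧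
        (e i).2.out (oracle Φ C (ora (fill c i n Finset.univ u))) (nm i x.1) = some y)
        (M.p.eval (n + 1) + ((e i).1.p.eval (b.eval (n + 1)) + (e i).2.p.eval (i + n + 1)))
        (fun D u _ x hx => by
          obtain ⟨H, hH1, hH2⟩ := one_runQ hc C e M hb a (by omega : 1 ≤ n) c i h1 h2 h2' D u
            (htot D u) x hx
          refine ⟨H, hH1, fun v hv hvD => ?_⟩
          by_contra hcon
          push Not at hcon
          obtain ⟨w, y, h7, h8, h9⟩ := (Finset.mem_filter.1 hv).2 x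
          exact hH2 v hvD hcon w y h7 h8 h9)
      rwa [card_Str] at h6) h3
  have hFQ : fill c i n Finset.univ u ∈ FQ Φ C 𝒲 e i (M, N) := by
    refine ⟨n, by show N ≤ n; omega, fun a ha => ?_⟩
    have h6 := hu a ha
    simp only [Finset.mem_filter, Finset.mem_univ, true_and] at h6
    push Not at h6
    obtain ⟨x, h7⟩ := h6
    exact ⟨x.1, x.2, h7⟩
  obtain ⟨ℓ'', h6⟩ := FQ_open hc C 𝒲 e i (M, N) _ hFQ
  exact ⟨ℓ + ℓ'', _, by omega, fill_agree h4 c i Finset.univ u,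
    (fill_legal hl hno h4 u).mono (by omega), fun c'' h7 h8 _ => h6 c'' h7 (h8.mono (by omega))⟩

/-- The main theorem on proof systems. -/
theorem mainQ (α : ℕ → ℕ) (hα : Monotone α) (hα' : Tendsto α atTop atTop) (C : Oracle)
    (𝒲 : ℕ → Finset Oracle)
    (h𝒲 : ∀ P : Polynomial ℕ, ∀ᶠ n in atTop, (𝒲 n).card * P.eval n ^ 2 ^ n < 2 ^ (n * 2 ^ n)) :
    ∃ O : Oracle, NearlyCollapsed α O ∧ Contains O C ∧ ∀ L, NPHardRel O L →
      ∀ P, IsProofSystem O L P → ∃ Q, IsProofSystem O L Q ∧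
        ∀ M : Alg, ∃ᶠ n in atTop, ∀ a ∈ 𝒲 n, ∃ π : List Bool, π.length = n + 1 ∧
          ∀ w, M.out (join O a) π = some w → P w ≠ Q π := by
  classical
  obtain ⟨g, hg⟩ := Pool.Agent.H620R2.Gauge.CC.exists_enum
  obtain ⟨S, Φ, hc⟩ := exists_cp g (bt (slow2 α))
  have h1 := slow2_mono hα
  have h2 := slow2_tendsto hα'
  obtain ⟨e, he⟩ := exists_surjective_nat (Alg × Alg)
  have : Nonempty Alg := ⟨(e 0).1⟩
  obtain ⟨c, hok, hcc⟩ := generic (UQ_open hc C e) (ι := Alg × ℕ) (FQ Φ C 𝒲 e)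
    (key_Q hc h1 h2 C h𝒲 e)
  set O := oracle Φ C (ora c) with hO
  refine ⟨O, nearly hg hα hc (join (ora c) C), ⟨[false, true], fun x => rfl⟩,
    fun L hL P hP => ?_⟩
  set LS : Set (List Bool) := {y | ∃ i x, y = nm i x ∧ c i x ≠ none} with hLS
  have hNP : IsNP O LS := by
    refine ⟨fun y => [O ([false, false] ++ y)], Polynomial.X, ?_, fun y => ?_⟩
    · exact IsFP.tt (Q := fun y => [[false, false] ++ y]) (H := fun p => p.2)
        (Poly.cons (Poly.append (NPC.Poly.const _) Poly.id) (NPC.Poly.const []))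
        (Poly.snd Poly.id)
    · constructor
      · rintro ⟨i, x, rfl, hx⟩
        obtain ⟨u, hu⟩ := Option.ne_none_iff_exists'.1 hx
        refine ⟨u, ?_, ?_⟩
        · rw [Polynomial.eval_X, length_nm, hok i x u hu]
          omega
        · show [ora c (pairBits (nm i x) u)] = [true]
          rw [List.cons.injEq, and_iff_left rfl]
          exact ora_wd.2 hu
      · rintro ⟨u, -, hu⟩
        change [ora c (pairBits y u)] = [true] at hu
        rw [List.cons.injEq, and_iff_left rfl] at hu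
        unfold ora at hu
        rw [decide_eq_true_eq] at hu
        obtain ⟨i, x, u', h3, h4⟩ := hu
        have h5 := congrArg unpair h3
        rw [wd, unpair_pairBits, unpair_pairBits, Prod.mk.injEq] at h5
        exact ⟨i, x, h5.1, by rw [h4]; simp⟩
  obtain ⟨F, hF, hFL⟩ := hL LS hNP
  obtain ⟨MP, hMP⟩ := hP.1
  obtain ⟨MF, hMF⟩ := id hF
  obtain ⟨i, hi⟩ := he (MP, MF)
  rcases hcc i with ⟨w, x, v, h3, h4, h5⟩ | ⟨h3, -, h4⟩
  · exfalso
    rw [hi] at h4 h5
    rw [← hO] at h4 h5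
    have h6 := (hMP w).symm.trans h4
    have h7 := (hMF (nm i x)).symm.trans h5
    rw [Option.some.injEq] at h6 h7
    have h8 : F (nm i x) ∈ L := by
      rw [h7, ← h6, ← hP.2]
      exact ⟨w, rfl⟩
    obtain ⟨j, y, h9, h10⟩ := (hFL _).2 h8
    obtain ⟨rfl, rfl⟩ := nm_inj h9
    exact h10 h3
  have hax : IsFP O (fun x => F (nm i x)) := IsFP.comp hF (IsFP.of_poly
    (Poly.append (NPC.Poly.const _) (Poly.cons (NPC.Poly.const _) Poly.id)))
  refine ⟨_, addAx' hP hax fun x => (hFL _).1 ⟨i, x, rfl, h3 x⟩, fun M => ?_⟩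
  rw [frequently_atTop]
  intro N
  obtain ⟨n, hn, h5⟩ := h4 (M, N)
  refine ⟨n, hn, fun a ha => ?_⟩
  obtain ⟨x, hx, h6⟩ := h5 a ha
  refine ⟨true :: x, by rw [List.length_cons, hx], fun w hw hPQ => ?_⟩
  rw [addSys_true] at hPQ
  refine h6 w (P w) hw ?_ ?_
  · rw [hi]
    exact hMP w
  · rw [hi, hPQ]
    exact hMF _

end Pool.Agent.J6H56.TF
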