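import Pool.Agent.J6H56.TF.World
import Pool.Agent.J6H56.TF.Defs

/-!
# Search problems: one run, and the key lemma
-/

set_option autoImplicit false

namespace Pool.Agent.J6H56.TF

open Filter Pool.Agent.NPC Pool.Agent.H628R3.RO Pool.Agent.J6H49.OP
open Pool.Agent.TH678.GC (join)
open Pool.Agent.TH678.RS (bt)
open Pool.Agent.Y626.WX (Cp cod)
open Pool.Agent.J6H49.PHC (oracle)

/-- `y` is a solution of the instance `z` -/
def Sol (Φ : Oracle → Oracle) (C : Oracle) (e : Alg × Polynomial ℕ) (c : Conf)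
    (z y : List Bool) : Prop :=
  y.length ≤ e.2.eval z.length ∧ e.1.out (oracle Φ C (ora c)) (pairBits z y) = some [true]

/-- the search problem number `i` is not total -/
def US (Φ : Oracle → Oracle) (C : Oracle) (e : ℕ → Alg × Polynomial ℕ) (i : ℕ) : Set Conf :=
  {c | ∃ z, ∀ y, ¬ Sol Φ C (e i) c z y}

/-- `M` is wrong for some input of length `n`, for all advice in `𝒲 n` -/
def FS (Φ : Oracle → Oracle) (C : Oracle) (𝒲 : ℕ → Finset Oracle) (e : ℕ → Alg × Polynomial ℕ)
    (i : ℕ) (r : Alg × ℕ) : Set Conf :=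
  {c | ∃ n ≥ r.2, ∀ a ∈ 𝒲 n, ∃ x : List Bool, x.length = n ∧ ∃ t : List Bool → List Bool,
    (∀ z, Sol Φ C (e i) c z (t z)) ∧ ∀ y,
      r.1.out (join (oracle Φ C (ora c)) (join (bits t) a)) x = some y → c i x ≠ some y}

/-- the bound for the length of the questions to the verifier -/
noncomputable def lv (e : Alg × Polynomial ℕ) : Polynomial ℕ :=
  (qb e.1).comp (Polynomial.C 2 * Polynomial.X + Polynomial.C 1 + e.2)

theorem lv_eval (e : Alg × Polynomial ℕ) (m : ℕ) :
    (lv e).eval m = (qb e.1).eval (2 * m + 1 + e.2.eval m) := by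
  unfold lv
  simp

variable {α : ℕ → ℕ} {g : ℕ → Pool.Agent.H620R2.Gauge.SAlg × Polynomial ℕ}
  {S : ℕ → Polynomial ℕ} {Φ : Oracle → Oracle}

theorem qb_le_lv {e : Alg × Polynomial ℕ} {z y : List Bool} {m : ℕ} (hz : z.length ≤ m)
    (hy : y.length ≤ e.2.eval z.length) : (qb e.1).eval (pairBits z y).length ≤ (lv e).eval m := by
  rw [lv_eval]
  apply eval_mono
  rw [length_pairBits]
  have := eval_mono e.2 hz
  omega

theorem sol_agree (hc : Cp g S (bt α) Φ) (C : Oracle) {e : Alg × Polynomial ℕ} {c c' : Conf}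
    {ℓ m : ℕ} (h : Agree ℓ c c') (hℓ : (lv e).eval m ≤ ℓ) {z y : List Bool} (hz : z.length ≤ m)
    (hs : Sol Φ C e c z y) : Sol Φ C e c' z y := by
  refine ⟨hs.1, ?_⟩
  rw [← hs.2]
  refine (out_loc hc e.1 (ℓ := ℓ) (fun _ _ => rfl) (fun u hu => ora_agree h u hu) ?_).symm
  exact (qb_le_lv hz hs.1).trans hℓ

theorem Agree.symm {ℓ : ℕ} {c c' : Conf} (h : Agree ℓ c c') : Agree ℓ c' c :=
  fun i x hx => (h i x hx).symm

theorem US_open (hc : Cp g S (bt α) Φ) (C : Oracle) (e : ℕ → Alg × Polynomial ℕ) (i : ℕ)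
    (c : Conf) (_ : Ok c) (h : c ∈ US Φ C e i) :
    ∃ ℓ, ∀ c', Ok c' → Agree ℓ c c' → c' ∈ US Φ C e i := by
  obtain ⟨z, hz⟩ := h
  exact ⟨(lv (e i)).eval z.length, fun c' _ h1 => ⟨z, fun y hy =>
    hz y (sol_agree hc C h1.symm le_rfl le_rfl hy)⟩⟩

theorem FS_open (hc : Cp g S (bt α) Φ) (C : Oracle) (𝒲 : ℕ → Finset Oracle)
    (e : ℕ → Alg × Polynomial ℕ) (i : ℕ) (r : Alg × ℕ) (c : Conf) (h : c ∈ FS Φ C 𝒲 e i r) :
    ∃ ℓ, ∀ c', Ok c' → Agree ℓ c c' → c' ∉ US Φ C e i → c' ∈ FS Φ C 𝒲 e i r := by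
  classical
  obtain ⟨n, hn, h1⟩ := h
  set Lq := (qb r.1).eval n with hLq
  refine ⟨Lq + (lv (e i)).eval Lq + i + n, fun c' _ hag hU => ⟨n, hn, fun a ha => ?_⟩⟩
  obtain ⟨x, hx, t, ht, h2⟩ := h1 a ha
  have hU' : ∀ z, ∃ y, Sol Φ C (e i) c' z y := by
    intro z
    by_contra hcon
    push Not at hcon
    exact hU ⟨z, hcon⟩
  choose t' ht' using hU'
  refine ⟨x, hx, fun z => if z.length ≤ Lq then t z else t' z, fun z => ?_, fun y hy => ?_⟩
  · by_cases hz : z.length ≤ Lq
    · simp only [if_pos hz]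
      exact sol_agree hc C hag (m := Lq) (by omega) hz (ht z)
    · simp only [if_neg hz]
      exact ht' z
  · rw [← hag i x (by omega)]
    apply h2 y
    rw [← hy]
    obtain ⟨Q, -, hQ2, hQ3⟩ := qb_spec r.1 (join (oracle Φ C (ora c')) (join (bits fun z =>
      if z.length ≤ Lq then t z else t' z) a)) x
    refine hQ3 _ fun q hq => ?_
    have hql := hQ2 q hq
    rw [hx, ← hLq] at hql
    match q, hql with
    | [], _ => rfl
    | false :: q, hql =>
      rw [List.length_cons] at hql
      exact O_loc hc (ℓ := Lq) (fun _ _ => rfl) (fun u hu => ora_agree hag u (by omega)) (by omega)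
    | true :: [], _ => rfl
    | true :: true :: q, _ => rfl
    | true :: false :: q, hql =>
      show bits t q = bits (fun z => if z.length ≤ Lq then t z else t' z) q
      refine bits_congr ?_
      have h3 := length_unpair q.tail
      have h4 : q.tail.length = q.length - 1 := List.length_tail
      rw [List.length_cons, List.length_cons] at hql
      have h5 : (unpair q.tail).1.length ≤ Lq := by omega
      simp only [if_pos h5]

/-- the number of the places -/
noncomputable def places (e : Alg × Polynomial ℕ) (M : Alg) : Polynomial ℕ :=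
  M.p + M.p * (e.1.p.comp (Polynomial.C 2 * Polynomial.X + Polynomial.C 1 + e.2)).comp (qb M) + 1

/-- One run: with few places, such that a solution without a hit is wrong. -/
theorem one_run (hc : Cp g S (bt α) Φ) (C : Oracle) (e : Alg × Polynomial ℕ) (M : Alg) (a : Oracle)
    {n : ℕ} (hn : 1 ≤ n) (hM : (qb M).eval n ≤ lam α n)
    (hV : (lv e).eval ((qb M).eval n) ≤ lam α n) (c : Conf) (i : ℕ) (D : Finset (Str n))
    (u : Str n → Str n) (htot : ∀ z, ∃ y, Sol Φ C e (fill c i n D u) z y) (x : Str n)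
    (hx : x ∉ D) :
    ∃ H : Finset (Str n × Str n), H.card ≤ (places e M).eval n ∧
      ∀ v : Str n → Str n, (∀ x ∈ D, v x = u x) → (∀ p ∈ H, p.1 ∉ D → v p.1 ≠ p.2) →
        (∀ z, ∃ y, Sol Φ C e (fill c i n Finset.univ v) z y) →
        ∃ t : List Bool → List Bool, (∀ z, Sol Φ C e (fill c i n Finset.univ v) z (t z)) ∧
          ∀ y, M.out (join (oracle Φ C (ora (fill c i n Finset.univ v))) (join (bits t) a)) x.1 =
            some y → fill c i n Finset.univ v i x.1 ≠ some y := by
  classical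
  choose tD htD using htot
  obtain ⟨H1, Q, hH1, hQ1, hQ2, hQ3⟩ := run_stable2 hc M C hn c i D u (z := x.1)
    (by rw [x.2]; exact hM) (join (bits tD) a)
  rw [x.2] at hH1 hQ1 hQ2
  set Lq := (qb M).eval n with hLq
  set Z : Finset (List Bool) := (Q.filter fun q => q.length ≤ Lq).image
    (fun q => (unpair (q.drop 3)).1) with hZ
  have hZl : ∀ z ∈ Z, z.length ≤ Lq := by
    intro z hz
    obtain ⟨q, hq, rfl⟩ := Finset.mem_image.1 hz
    have h1 := length_unpair (q.drop 3)
    have h2 := (Finset.mem_filter.1 hq).2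
    rw [List.length_drop] at h1
    omega
  have hZc : Z.card ≤ M.p.eval n :=
    Finset.card_image_le.trans ((Finset.card_filter_le _ _).trans hQ1)
  have hrun : ∀ z : List Bool, ∃ H : Finset (Str n × Str n), z ∈ Z →
      H.card ≤ e.1.p.eval (2 * Lq + 1 + e.2.eval Lq) ∧ ∀ v : Str n → Str n,
      (∀ x ∈ D, v x = u x) → (∀ p ∈ H, p.1 ∉ D → v p.1 ≠ p.2) →
      e.1.out (oracle Φ C (ora (fill c i n Finset.univ v))) (pairBits z (tD z)) =
        e.1.out (oracle Φ C (ora (fill c i n D u))) (pairBits z (tD z)) := by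
    intro z
    by_cases hz : z ∈ Z
    · have h1 := qb_le_lv (hZl z hz) (htD z).1
      obtain ⟨H, h2, h3⟩ := run_stable hc e.1 C hn c i D u (z := pairBits z (tD z)) (h1.trans hV)
      refine ⟨H, fun _ => ⟨h2.trans (eval_mono _ ?_), h3⟩⟩
      rw [length_pairBits]
      have h4 := (htD z).1
      have h5 := eval_mono e.2 (hZl z hz)
      have h6 := hZl z hz
      omega
    · exact ⟨∅, fun h => absurd h hz⟩
  choose HZ hHZ using hrun
  set o := M.out (join (oracle Φ C (ora (fill c i n D u))) (join (bits tD) a)) x.1 with ho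
  set H0 : Finset (Str n × Str n) := Finset.univ.filter fun p => p.1 = x ∧ o = some p.2.1 with hH0
  have hH0c : H0.card ≤ 1 := by
    refine Finset.card_le_one.2 fun p hp q hq => ?_
    obtain ⟨-, hp1, hp2⟩ := Finset.mem_filter.1 hp
    obtain ⟨-, hq1, hq2⟩ := Finset.mem_filter.1 hq
    rw [hp2, Option.some.injEq] at hq2
    exact Prod.ext (hp1.trans hq1.symm) (Subtype.ext hq2)
  refine ⟨H1 ∪ Z.biUnion HZ ∪ H0, ?_, fun v hv hno htv => ?_⟩
  · have h1 : (Z.biUnion HZ).card ≤ Z.card * e.1.p.eval (2 * Lq + 1 + e.2.eval Lq) :=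
      Finset.card_biUnion_le_card_mul _ _ _ fun z hz => (hHZ z hz).1
    have h2 := Finset.card_union_le (H1 ∪ Z.biUnion HZ) H0
    have h3 := Finset.card_union_le H1 (Z.biUnion HZ)
    have h4 : Z.card * e.1.p.eval (2 * Lq + 1 + e.2.eval Lq) ≤
        M.p.eval n * e.1.p.eval (2 * Lq + 1 + e.2.eval Lq) := Nat.mul_le_mul_right _ hZc
    have h5 : (places e M).eval n =
        M.p.eval n + M.p.eval n * e.1.p.eval (2 * Lq + 1 + e.2.eval Lq) + 1 := by
      unfold places
      simp [hLq]
    omega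
  · choose tv htv using htv
    have hsame : M.out (join (oracle Φ C (ora (fill c i n Finset.univ v))) (join (bits fun z =>
        if z ∈ Z then tD z else tv z) a)) x.1 = o := by
      refine hQ3 v hv (fun p hp => hno p (Finset.mem_union_left _ (Finset.mem_union_left _ hp)))
        _ fun q hq => ?_
      match q, hq with
      | [], _ => rfl
      | true :: q, _ => rfl
      | false :: q, hq =>
        show bits (fun z => if z ∈ Z then tD z else tv z) q = bits tD q
        refine bits_congr ?_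
        have h5 : (unpair q.tail).1 ∈ Z := by
          refine Finset.mem_image.2 ⟨_, Finset.mem_filter.2 ⟨hq, hQ2 _ hq⟩, ?_⟩
          simp [List.drop_one]
        simp only [if_pos h5]
    refine ⟨fun z => if z ∈ Z then tD z else tv z, fun z => ?_, fun y hy => ?_⟩
    · by_cases hz : z ∈ Z
      · simp only [if_pos hz]
        refine ⟨(htD z).1, ?_⟩
        rw [(hHZ z hz).2 v hv (fun p hp => hno p (Finset.mem_union_left _
          (Finset.mem_union_right _ (Finset.mem_biUnion.2 ⟨z, hz, hp⟩))))]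
        exact (htD z).2
      · simp only [if_neg hz]
        exact htv z
    · rw [hsame] at hy
      rw [fill_mem (Finset.mem_univ x)]
      intro h1
      rw [Option.some.injEq] at h1
      refine hno (x, v x) (Finset.mem_union_right _ (Finset.mem_filter.2
        ⟨Finset.mem_univ _, rfl, ?_⟩)) hx rfl
      rw [hy, h1]

end Pool.Agent.J6H56.TF
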