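import Pool.Agent.J6H56.TF.Core
import Pool.Agent.J6H49.OP.Time
import Pool.Agent.J6H49.OP.Late

/-!
# The oracle of a configuration
-/

set_option autoImplicit false

namespace Pool.Agent.J6H56.TF

open Filter Pool.Agent.NPC Pool.Agent.H628R3.RO Pool.Agent.J6H49.OP
open Pool.Agent.TH678.GC (join)
open Pool.Agent.TH678.RS (bt)
open Pool.Agent.Y626.WX (Cp cod)
open Pool.Agent.J6H49.PHC (oracle)

/-- the name of the block `(i, x)` -/
def nm (i : ℕ) (x : List Bool) : List Bool := List.replicate i true ++ false :: x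

/-- the place of the secret `u` of the block `(i, x)` -/
def wd (i : ℕ) (x u : List Bool) : List Bool := pairBits (nm i x) u

theorem length_nm (i : ℕ) (x : List Bool) : (nm i x).length = i + x.length + 1 := by
  simp [nm]
  omega

theorem length_wd (i : ℕ) (x u : List Bool) :
    (wd i x u).length = 2 * (i + x.length + 1) + 1 + u.length := by
  rw [wd, length_pairBits, length_nm]

theorem nm_inj {i j : ℕ} {x y : List Bool} (h : nm i x = nm j y) : i = j ∧ x = y := by
  induction i generalizing j with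
  | zero =>
    cases j with
    | zero => simpa [nm] using h
    | succ j => simp [nm, List.replicate_succ] at h
  | succ i ih =>
    cases j with
    | zero => simp [nm, List.replicate_succ] at h
    | succ j =>
      have h1 : nm i x = nm j y := by
        simpa [nm, List.replicate_succ] using h
      obtain ⟨h2, h3⟩ := ih h1
      exact ⟨by omega, h3⟩

theorem wd_inj {i j : ℕ} {x y u v : List Bool} (h : wd i x u = wd j y v) :
    i = j ∧ x = y ∧ u = v := by
  have h1 := congrArg unpair h
  rw [wd, wd, unpair_pairBits, unpair_pairBits, Prod.mk.injEq] at h1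
  obtain ⟨h2, h3⟩ := nm_inj h1.1
  exact ⟨h2, h3, h1.2⟩

open Classical in
/-- the oracle of the configuration `c` -/
noncomputable def ora (c : Conf) : Oracle := fun z =>
  decide (∃ i x u, z = wd i x u ∧ c i x = some u)

theorem ora_wd {c : Conf} {i : ℕ} {x u : List Bool} :
    ora c (wd i x u) = true ↔ c i x = some u := by
  classical
  unfold ora
  refine decide_eq_true_iff.trans ?_
  constructor
  · rintro ⟨j, y, v, h1, h2⟩
    obtain ⟨rfl, rfl, rfl⟩ := wd_inj h1
    exact h2
  · intro h
    exact ⟨i, x, u, rfl, h⟩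

theorem ora_congr {c c' : Conf} {z : List Bool}
    (h : ∀ i x u, z = wd i x u → (c i x = some u ↔ c' i x = some u)) : ora c z = ora c' z := by
  classical
  unfold ora
  rw [decide_eq_decide]
  refine exists_congr fun i => exists_congr fun x => exists_congr fun u => ?_
  exact and_congr_right fun hz => h i x u hz

theorem ora_agree {ℓ : ℕ} {c c' : Conf} (h : Agree ℓ c c') (z : List Bool) (hz : z.length ≤ ℓ) :
    ora c z = ora c' z := by
  refine ora_congr fun i x u hzu => ?_
  rw [h i x ?_]
  rw [hzu, length_wd] at hz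
  omega

theorem ora_fill_short {c : Conf} {i n : ℕ} {D D' : Finset (Str n)} {u u' : Str n → Str n}
    (z : List Bool) (hz : z.length ≤ n) :
    ora (fill c i n D u) z = ora (fill c i n D' u') z := by
  refine ora_congr fun j x v hzu => ?_
  rw [hzu, length_wd] at hz
  rw [fill_ne (by omega), fill_ne (by omega)]

/-- without a hit, the oracles agree at `z` -/
theorem ora_fill_eq {c : Conf} {i n : ℕ} {D : Finset (Str n)} {u : Str n → Str n} (z : List Bool)
    (h : ∀ p : Str n × Str n, z = wd i p.1.1 p.2.1 → p.1 ∉ D → u p.1 ≠ p.2) :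
    ora (fill c i n Finset.univ u) z = ora (fill c i n D u) z := by
  refine ora_congr fun j x v hzu => ?_
  by_cases hj : j = i ∧ x.length = n
  · obtain ⟨rfl, hx⟩ := hj
    have h1 : fill c j n Finset.univ u j x = some (u ⟨x, hx⟩).1 :=
      fill_mem (x := (⟨x, hx⟩ : Str n)) (Finset.mem_univ _)
    by_cases hD : (⟨x, hx⟩ : Str n) ∈ D
    · have h2 : fill c j n D u j x = some (u ⟨x, hx⟩).1 := fill_mem (x := (⟨x, hx⟩ : Str n)) hD
      rw [h1, h2]
    · have h2 : fill c j n D u j x = none := fill_notMem (x := (⟨x, hx⟩ : Str n)) hD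
      rw [h1, h2]
      constructor
      · intro h3
        rw [Option.some.injEq] at h3
        refine absurd ?_ (h (⟨x, hx⟩, u ⟨x, hx⟩) ?_ hD)
        · rfl
        · rw [hzu]
          exact congrArg _ h3.symm
      · intro h3
        exact absurd h3 (by simp)
  · rw [fill_ne hj, fill_ne hj]

/-- the hits among the places in `Q` -/
noncomputable def hitsOf (i n : ℕ) (Q : Finset (List Bool)) : Finset (Str n × Str n) := by
  classical
  exact Finset.univ.filter fun p => wd i p.1.1 p.2.1 ∈ Q

theorem card_hitsOf (i n : ℕ) (Q : Finset (List Bool)) : (hitsOf i n Q).card ≤ Q.card := by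
  classical
  refine Finset.card_le_card_of_injOn (fun p => wd i p.1.1 p.2.1) (fun p hp => ?_) ?_
  · unfold hitsOf at hp
    exact (Finset.mem_filter.1 hp).2
  · rintro ⟨x, y⟩ - ⟨x', y'⟩ - h
    obtain ⟨-, h1, h2⟩ := wd_inj h
    exact Prod.ext (Subtype.ext h1) (Subtype.ext h2)

theorem mem_hitsOf {i n : ℕ} {Q : Finset (List Bool)} {p : Str n × Str n} :
    p ∈ hitsOf i n Q ↔ wd i p.1.1 p.2.1 ∈ Q := by
  classical
  unfold hitsOf
  simp

theorem eq_of_noHit {c : Conf} {i n : ℕ} {D : Finset (Str n)} {u : Str n → Str n}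
    {Q : Finset (List Bool)} (h : ∀ p ∈ hitsOf i n Q, p.1 ∉ D → u p.1 ≠ p.2) :
    ∀ z ∈ Q, ora (fill c i n Finset.univ u) z = ora (fill c i n D u) z := by
  intro z hz
  refine ora_fill_eq z fun p hp => h p ?_
  rw [mem_hitsOf, ← hp]
  exact hz

variable {α : ℕ → ℕ} {g : ℕ → Pool.Agent.H620R2.Gauge.SAlg × Polynomial ℕ}
  {S : ℕ → Polynomial ℕ} {Φ : Oracle → Oracle}

/-- the run of an algorithm with the oracle of the configuration -/
theorem run_stable (hc : Cp g S (bt α) Φ) (M : Alg) (C : Oracle) {n : ℕ} (hn : 1 ≤ n) (c : Conf)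
    (i : ℕ) (D : Finset (Str n)) (u : Str n → Str n) {z : List Bool}
    (hz : (qb M).eval z.length ≤ lam α n) :
    ∃ H : Finset (Str n × Str n), H.card ≤ M.p.eval z.length ∧ ∀ v : Str n → Str n,
      (∀ x ∈ D, v x = u x) → (∀ p ∈ H, p.1 ∉ D → v p.1 ≠ p.2) →
      M.out (oracle Φ C (ora (fill c i n Finset.univ v))) z =
        M.out (oracle Φ C (ora (fill c i n D u))) z := by
  obtain ⟨Q, hQ1, hQ2⟩ := out_stable hc M hn C (ora (fill c i n D u)) hz
  refine ⟨hitsOf i n Q, (card_hitsOf i n Q).trans hQ1, fun v hv hno => ?_⟩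
  refine hQ2 _ (fun x hx => ora_fill_short x hx) fun x hx => ?_
  rw [← fill_congr hv]
  exact eq_of_noHit hno x hx

/-- the same with a further oracle `a`, which depends on the configuration -/
theorem run_stable2 (hc : Cp g S (bt α) Φ) (M : Alg) (C : Oracle) {n : ℕ} (hn : 1 ≤ n) (c : Conf)
    (i : ℕ) (D : Finset (Str n)) (u : Str n → Str n) {z : List Bool}
    (hz : (qb M).eval z.length ≤ lam α n) (a : Oracle) :
    ∃ (H : Finset (Str n × Str n)) (Q : Finset (List Bool)), H.card ≤ M.p.eval z.length ∧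
      Q.card ≤ M.p.eval z.length ∧ (∀ q ∈ Q, q.length ≤ (qb M).eval z.length) ∧
      ∀ v : Str n → Str n, (∀ x ∈ D, v x = u x) → (∀ p ∈ H, p.1 ∉ D → v p.1 ≠ p.2) →
      ∀ a' : Oracle, (∀ q, true :: q ∈ Q → a' q = a q) →
      M.out (join (oracle Φ C (ora (fill c i n Finset.univ v))) a') z =
        M.out (join (oracle Φ C (ora (fill c i n D u))) a) z := by
  classical
  obtain ⟨Q, hQ1, hQ2, hQ3⟩ := qb_spec M (join (oracle Φ C (ora (fill c i n D u))) a) z
  refine ⟨hitsOf i n (Q.image (List.drop 3)), Q,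
    (card_hitsOf i n _).trans (Finset.card_image_le.trans hQ1), hQ1, hQ2,
    fun v hv hno a' ha => ?_⟩
  refine hQ3 _ fun q hq => ?_
  match q, hq with
  | [], _ => rfl
  | true :: q, hq => exact ha q hq
  | false :: q, hq =>
    show oracle Φ C (ora (fill c i n Finset.univ v)) q = oracle Φ C (ora (fill c i n D u)) q
    by_cases hpre : ∃ x, q = [false, false] ++ x
    · obtain ⟨x, rfl⟩ := hpre
      rw [O_pre, O_pre, ← fill_congr hv]
      refine eq_of_noHit hno x (Finset.mem_image.2 ⟨_, hq, rfl⟩)
    · push Not at hpre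
      refine O_late hc hn C (fun x hx => ora_fill_short x hx) ?_ hpre
      have h1 := hQ2 _ hq
      rw [List.length_cons] at h1
      omega

end Pool.Agent.J6H56.TF
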